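import Mathlib

/-!
# Graded modules with a regular sequence of length two are free (MP_d3517d_nt, part EX)

`A` is a commutative algebra over a field `K`, `M k` (`k : ℤ`) are subspaces of `A`, zero for
`k < 0`, and `x, y : A` are homogeneous of positive degrees `p, q`. If `(x, y)` is a regular
sequence on `M`, then `M` is a free graded module over `K[x, y]`: there are homogeneous `F j` such
that the products `x ^ a * y ^ b * F j` of degree `k` are a basis of `M k`, for every `k`.
-/

open Finsupp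

noncomputable section

universe u

namespace Gouvea.EX

variable {K A : Type*} [Field K] [CommRing A] [Algebra K A]

/-- A graded module in `A` over `K[x, y]`, on which `(x, y)` is a regular sequence. -/
structure RegMod (x y : A) (p q : ℤ) (M : ℤ → Submodule K A) : Prop where
  hp : 0 < p
  hq : 0 < q
  neg : ∀ k < 0, M k = ⊥
  mulx : ∀ k, ∀ f ∈ M k, x * f ∈ M (k + p)
  muly : ∀ k, ∀ f ∈ M k, y * f ∈ M (k + q)
  reg : ∀ k, ∀ f ∈ M (k + q), ∀ g ∈ M (k + p), x * f + y * g = 0 →
    ∃ h ∈ M k, f = y * h ∧ g = -(x * h)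

/-- The monomials. -/
def mon {ι : Type*} (x y : A) (F : ι → A) (t : ℕ × ℕ × ι) : A := x ^ t.1 * y ^ t.2.1 * F t.2.2

/-- The degrees of the monomials. -/
def dg {ι : Type*} (p q : ℤ) (w : ι → ℤ) (t : ℕ × ℕ × ι) : ℤ :=
  t.1 * p + t.2.1 * q + w t.2.2

/-- `(a, b, j) ↦ (a + 1, b, j)` -/
def shx (ι : Type*) : ℕ × ℕ × ι ↪ ℕ × ℕ × ι :=
  ⟨fun t => (t.1 + 1, t.2.1, t.2.2), fun s t h => by
    simp only [Prod.mk.injEq, add_left_inj] at h
    ext1
    · exact h.1
    · exact Prod.ext h.2.1 h.2.2⟩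

/-- `(a, b, j) ↦ (a, b + 1, j)` -/
def shy (ι : Type*) : ℕ × ℕ × ι ↪ ℕ × ℕ × ι :=
  ⟨fun t => (t.1, t.2.1 + 1, t.2.2), fun s t h => by
    simp only [Prod.mk.injEq, add_left_inj] at h
    ext1
    · exact h.1
    · exact Prod.ext h.2.1 h.2.2⟩

variable {ι : Type*} {x y : A} {F : ι → A}

lemma mon_shx (t : ℕ × ℕ × ι) : mon x y F (shx ι t) = x * mon x y F t := by
  simp only [mon, shx, Function.Embedding.coeFn_mk, pow_succ]
  ring

lemma mon_shy (t : ℕ × ℕ × ι) : mon x y F (shy ι t) = y * mon x y F t := by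
  simp only [mon, shy, Function.Embedding.coeFn_mk, pow_succ]
  ring

lemma dg_shx (p q : ℤ) (w : ι → ℤ) (t : ℕ × ℕ × ι) : dg p q w (shx ι t) = dg p q w t + p := by
  simp only [dg, shx, Function.Embedding.coeFn_mk]
  push_cast
  ring

lemma dg_shy (p q : ℤ) (w : ι → ℤ) (t : ℕ × ℕ × ι) : dg p q w (shy ι t) = dg p q w t + q := by
  simp only [dg, shy, Function.Embedding.coeFn_mk]
  push_cast
  ring

/-- linear combinations of the monomials -/
def lc (K : Type*) [Field K] [Algebra K A] (x y : A) (F : ι → A) : (ℕ × ℕ × ι →₀ K) →ₗ[K] A :=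
  Finsupp.linearCombination K (mon x y F)

lemma lc_mapx (c : ℕ × ℕ × ι →₀ K) :
    lc K x y F (c.embDomain (shx ι)) = x * lc K x y F c := by
  rw [lc, Finsupp.linearCombination_embDomain]
  simp only [Finsupp.linearCombination_apply, Finsupp.sum, Function.comp_apply, mon_shx,
    Finset.mul_sum]
  exact Finset.sum_congr rfl fun t _ => by rw [mul_smul_comm]

lemma lc_mapy (c : ℕ × ℕ × ι →₀ K) :
    lc K x y F (c.embDomain (shy ι)) = y * lc K x y F c := by
  rw [lc, Finsupp.linearCombination_embDomain]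
  simp only [Finsupp.linearCombination_apply, Finsupp.sum, Function.comp_apply, mon_shy,
    Finset.mul_sum]
  exact Finset.sum_congr rfl fun t _ => by rw [mul_smul_comm]

/-- `j ↦ (0, 0, j)` -/
def sh0 (ι : Type*) : ι ↪ ℕ × ℕ × ι :=
  ⟨fun j => (0, 0, j), fun s t h => by simpa using h⟩

lemma mon_sh0 (j : ι) : mon x y F (sh0 ι j) = F j := by
  simp [mon, sh0]

lemma dg_sh0 (p q : ℤ) (w : ι → ℤ) (j : ι) : dg p q w (sh0 ι j) = w j := by
  simp [dg, sh0]

lemma lc_map0 (c : ι →₀ K) :
    lc K x y F (c.embDomain (sh0 ι)) = Finsupp.linearCombination K F c := by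
  rw [lc, Finsupp.linearCombination_embDomain]
  congr 2
  funext j
  exact mon_sh0 j

/-- the part `a = b = 0` -/
def cz (c : ℕ × ℕ × ι →₀ K) : ι →₀ K := c.comapDomain (sh0 ι) ((sh0 ι).injective.injOn)

/-- the part `a ≥ 1`, divided by `x` -/
def cx (c : ℕ × ℕ × ι →₀ K) : ℕ × ℕ × ι →₀ K :=
  c.comapDomain (shx ι) ((shx ι).injective.injOn)

/-- the part `a = 0`, `b ≥ 1`, divided by `y` -/
def cy (c : ℕ × ℕ × ι →₀ K) : ℕ × ℕ × ι →₀ K :=
  open Classical in
  (c.filter fun t => t.1 = 0).comapDomain (shy ι) ((shy ι).injective.injOn)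

lemma cy_apply (c : ℕ × ℕ × ι →₀ K) (t : ℕ × ℕ × ι) :
    cy c t = if t.1 = 0 then c (t.1, t.2.1 + 1, t.2.2) else 0 := by
  classical
  rw [cy, Finsupp.comapDomain_apply, Finsupp.filter_apply]
  rfl

lemma cx_apply (c : ℕ × ℕ × ι →₀ K) (t : ℕ × ℕ × ι) :
    cx c t = c (t.1 + 1, t.2.1, t.2.2) := rfl

lemma cz_apply (c : ℕ × ℕ × ι →₀ K) (j : ι) : cz c j = c (0, 0, j) := rfl

lemma split (c : ℕ × ℕ × ι →₀ K) :
    c = (cz c).embDomain (sh0 ι) + (cx c).embDomain (shx ι) + (cy c).embDomain (shy ι) := by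
  classical
  ext ⟨a, b, j⟩
  rw [Finsupp.add_apply, Finsupp.add_apply]
  have n0 : ∀ a b, ¬ (a = 0 ∧ b = 0) → ((cz c).embDomain (sh0 ι)) (a, b, j) = 0 := by
    intro a b hab
    refine Finsupp.embDomain_of_notMem_range _ _ _ ?_
    rintro ⟨t, ht⟩
    apply hab
    simp only [sh0, Function.Embedding.coeFn_mk, Prod.mk.injEq] at ht
    exact ⟨ht.1.symm, ht.2.1.symm⟩
  rcases a with _ | a
  · have h1 : ((cx c).embDomain (shx ι)) (0, b, j) = 0 := by
      refine Finsupp.embDomain_of_notMem_range _ _ _ ?_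
      rintro ⟨t, ht⟩
      have := congrArg Prod.fst ht
      simp [shx] at this
    rw [h1, add_zero]
    rcases b with _ | b
    · have h2 : ((cy c).embDomain (shy ι)) (0, 0, j) = 0 := by
        refine Finsupp.embDomain_of_notMem_range _ _ _ ?_
        rintro ⟨t, ht⟩
        have := congrArg (fun s => s.2.1) ht
        simp [shy] at this
      have h3 : ((0, 0, j) : ℕ × ℕ × ι) = sh0 ι j := rfl
      rw [h2, h3, Finsupp.embDomain_apply_self, add_zero]
      rfl
    · have h2 : ((cy c).embDomain (shy ι)) (0, b + 1, j) = c (0, b + 1, j) := by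
        have h3 : ((0, b + 1, j) : ℕ × ℕ × ι) = shy ι (0, b, j) := rfl
        rw [h3, Finsupp.embDomain_apply_self, cy_apply]
        rfl
      rw [h2, n0 0 (b + 1) (by omega), zero_add]
  · have h1 : ((cx c).embDomain (shx ι)) (a + 1, b, j) = c (a + 1, b, j) := by
      have h3 : ((a + 1, b, j) : ℕ × ℕ × ι) = shx ι (a, b, j) := rfl
      rw [h3, Finsupp.embDomain_apply_self, cx_apply]
      rfl
    have h2 : ((cy c).embDomain (shy ι)) (a + 1, b, j) = 0 := by
      rcases b with _ | b
      · refine Finsupp.embDomain_of_notMem_range _ _ _ ?_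
        rintro ⟨t, ht⟩
        have := congrArg (fun s => s.2.1) ht
        simp [shy] at this
      · have h3 : ((a + 1, b + 1, j) : ℕ × ℕ × ι) = shy ι (a + 1, b, j) := rfl
        rw [h3, Finsupp.embDomain_apply_self, cy_apply]
        simp
    rw [h1, h2, n0 (a + 1) b (by omega)]
    simp

lemma lc_split (c : ℕ × ℕ × ι →₀ K) :
    lc K x y F c = Finsupp.linearCombination K F (cz c) + x * lc K x y F (cx c) +
      y * lc K x y F (cy c) := by
  conv_lhs => rw [split c]
  rw [map_add, map_add, lc_mapx, lc_mapy, lc_map0]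

/-- `c` is homogeneous of degree `k` -/
def Homog (p q : ℤ) (w : ι → ℤ) (k : ℤ) (c : ℕ × ℕ × ι →₀ K) : Prop :=
  ∀ t, c t ≠ 0 → dg p q w t = k

variable {p q : ℤ} {w : ι → ℤ} {M : ℤ → Submodule K A} {k : ℤ}

lemma Homog.cx {c : ℕ × ℕ × ι →₀ K} (hc : Homog p q w k c) : Homog p q w (k - p) (cx c) := by
  intro t ht
  have h1 := hc (shx ι t) ht
  rw [dg_shx] at h1
  linarith

lemma Homog.cy {c : ℕ × ℕ × ι →₀ K} (hc : Homog p q w k c) : Homog p q w (k - q) (cy c) := by
  intro t ht
  rw [cy_apply] at ht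
  split_ifs at ht with h
  · have h1 := hc (shy ι t) ht
    rw [dg_shy] at h1
    linarith
  · exact absurd rfl ht

lemma Homog.cz {c : ℕ × ℕ × ι →₀ K} (hc : Homog p q w k c) : ∀ j, cz c j ≠ 0 → w j = k := by
  intro j hj
  have h1 := hc (sh0 ι j) hj
  rwa [dg_sh0] at h1

lemma Homog.mapx {c : ℕ × ℕ × ι →₀ K} (hc : Homog p q w k c) :
    Homog p q w (k + p) (c.embDomain (shx ι)) := by
  intro t ht
  by_cases h : t ∈ Set.range (shx ι)
  · obtain ⟨s, rfl⟩ := h
    rw [Finsupp.embDomain_apply_self] at ht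
    rw [dg_shx, hc s ht]
  · exact absurd (Finsupp.embDomain_of_notMem_range _ _ _ h) ht

lemma Homog.mapy {c : ℕ × ℕ × ι →₀ K} (hc : Homog p q w k c) :
    Homog p q w (k + q) (c.embDomain (shy ι)) := by
  intro t ht
  by_cases h : t ∈ Set.range (shy ι)
  · obtain ⟨s, rfl⟩ := h
    rw [Finsupp.embDomain_apply_self] at ht
    rw [dg_shy, hc s ht]
  · exact absurd (Finsupp.embDomain_of_notMem_range _ _ _ h) ht

lemma Homog.map0 {c : ι →₀ K} (hc : ∀ j, c j ≠ 0 → w j = k) :
    Homog p q w k (c.embDomain (sh0 ι)) := by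
  intro t ht
  by_cases h : t ∈ Set.range (sh0 ι)
  · obtain ⟨s, rfl⟩ := h
    rw [Finsupp.embDomain_apply_self] at ht
    rw [dg_sh0, hc s ht]
  · exact absurd (Finsupp.embDomain_of_notMem_range _ _ _ h) ht

lemma Homog.add {c d : ℕ × ℕ × ι →₀ K} (hc : Homog p q w k c) (hd : Homog p q w k d) :
    Homog p q w k (c + d) := by
  intro t ht
  by_cases h1 : c t = 0
  · refine hd t fun h2 => ht ?_
    rw [Finsupp.add_apply, h1, h2, add_zero]
  · exact hc t h1

/-- Homogeneous generators: for every `k` the `F j` with `w j = k` are a basis of a complement of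
`x M (k - p) + y M (k - q)` in `M k`. -/
structure Gens (x y : A) (p q : ℤ) (M : ℤ → Submodule K A) (F : ι → A) (w : ι → ℤ) : Prop where
  mem : ∀ j, F j ∈ M (w j)
  gen : ∀ k, ∀ f ∈ M k, ∃ c : ι →₀ K, (∀ j, c j ≠ 0 → w j = k) ∧ ∃ g ∈ M (k - p),
    ∃ h ∈ M (k - q), f = Finsupp.linearCombination K F c + x * g + y * h
  ind : ∀ k, ∀ c : ι →₀ K, (∀ j, c j ≠ 0 → w j = k) → ∀ g ∈ M (k - p), ∀ h ∈ M (k - q),
    Finsupp.linearCombination K F c + x * g + y * h = 0 → c = 0

lemma Gens.w_nonneg (hM : RegMod x y p q M) (hG : Gens x y p q M F w) (j : ι) : 0 ≤ w j := by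
  by_contra hlt
  have h1 := hG.mem j
  rw [hM.neg _ (not_le.1 hlt), Submodule.mem_bot] at h1
  have h2 := hG.ind (w j) (Finsupp.single j 1) (fun i hi => by
    by_contra hne
    refine hi (Finsupp.single_eq_of_ne' fun h => hne (by rw [h]))) 0 (zero_mem _) 0 (zero_mem _)
    (by simp [h1])
  exact one_ne_zero (Finsupp.single_eq_zero.1 h2)

lemma dg_nonneg (hM : RegMod x y p q M) (hw : ∀ j, 0 ≤ w j) (t : ℕ × ℕ × ι) :
    0 ≤ dg p q w t := by
  have h1 := hM.hp
  have h2 := hM.hq
  have h3 := hw t.2.2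
  unfold dg
  positivity

lemma RegMod.mon_mem (hM : RegMod x y p q M) (hF : ∀ j, F j ∈ M (w j)) (t : ℕ × ℕ × ι) :
    mon x y F t ∈ M (dg p q w t) := by
  obtain ⟨a, b, j⟩ := t
  induction a with
  | zero =>
    induction b with
    | zero => simpa [mon, dg] using hF j
    | succ b ih =>
      have h1 := hM.muly _ _ ih
      have h2 : ((0, b + 1, j) : ℕ × ℕ × ι) = shy ι (0, b, j) := rfl
      rw [h2, mon_shy, dg_shy]
      exact h1
  | succ a ih =>
    have h1 := hM.mulx _ _ ih
    have h2 : ((a + 1, b, j) : ℕ × ℕ × ι) = shx ι (a, b, j) := rfl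
    rw [h2, mon_shx, dg_shx]
    exact h1

lemma RegMod.lc_mem (hM : RegMod x y p q M) (hF : ∀ j, F j ∈ M (w j)) {c : ℕ × ℕ × ι →₀ K}
    (hc : Homog p q w k c) : lc K x y F c ∈ M k := by
  rw [lc, Finsupp.linearCombination_apply]
  refine Submodule.sum_mem _ fun t ht => Submodule.smul_mem _ _ ?_
  rw [← hc t (Finsupp.mem_support_iff.1 ht)]
  exact hM.mon_mem hF t

theorem Gens.span (hM : RegMod x y p q M) (hG : Gens x y p q M F w) :
    ∀ k, ∀ f ∈ M k, ∃ c, Homog p q w k c ∧ lc K x y F c = f := by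
  have key : ∀ n : ℕ, ∀ k : ℤ, k < n → ∀ f ∈ M k, ∃ c, Homog p q w k c ∧ lc K x y F c = f := by
    intro n
    induction n with
    | zero =>
      intro k hk f hf
      rw [hM.neg k (by exact_mod_cast hk), Submodule.mem_bot] at hf
      exact ⟨0, fun t ht => absurd rfl ht, by rw [map_zero, hf]⟩
    | succ n ih =>
      intro k hk f hf
      obtain ⟨c, hc, g, hg, h, hh, rfl⟩ := hG.gen k f hf
      have hp := hM.hp
      have hq := hM.hq
      push_cast at hk
      obtain ⟨cg, hcg, rfl⟩ := ih (k - p) (by linarith) g hg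
      obtain ⟨ch, hch, rfl⟩ := ih (k - q) (by linarith) h hh
      refine ⟨c.embDomain (sh0 ι) + cg.embDomain (shx ι) + ch.embDomain (shy ι), ?_, ?_⟩
      · have h1 := hcg.mapx
        have h2 := hch.mapy
        rw [sub_add_cancel] at h1 h2
        exact ((Homog.map0 hc).add h1).add h2
      · rw [map_add, map_add, lc_map0, lc_mapx, lc_mapy]
  intro k f hf
  exact key (k.toNat + 1) k (by have := Int.self_le_toNat k; push_cast; linarith) f hf

theorem Gens.indep (hM : RegMod x y p q M) (hG : Gens x y p q M F w) :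
    ∀ k, ∀ c, Homog p q w k c → lc K x y F c = 0 → c = 0 := by
  have hw := hG.w_nonneg hM
  have key : ∀ n : ℕ, ∀ k : ℤ, k < n → ∀ c, Homog p q w k c → lc K x y F c = 0 → c = 0 := by
    intro n
    induction n with
    | zero =>
      intro k hk c hc _
      ext t
      by_contra h
      have h1 := hc t h
      have h2 := dg_nonneg hM hw t
      rw [h1] at h2
      push_cast at hk
      linarith
    | succ n ih =>
      intro k hk c hc h0
      have hp := hM.hp
      have hq := hM.hq
      push_cast at hk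
      have hg := hM.lc_mem hG.mem hc.cx
      have hh := hM.lc_mem hG.mem hc.cy
      rw [lc_split] at h0
      have hz := hG.ind k (cz c) hc.cz _ hg _ hh h0
      rw [hz, map_zero, zero_add] at h0
      have e1 : k - p = (k - p - q) + q := by ring
      have e2 : k - q = (k - p - q) + p := by ring
      rw [e1] at hg
      rw [e2] at hh
      obtain ⟨h, hhm, h1, h2⟩ := hM.reg (k - p - q) _ hg _ hh h0
      obtain ⟨d, hd, rfl⟩ := hG.span hM _ h hhm
      have hcy : cy c + d.embDomain (shx ι) = 0 := by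
        refine ih (k - q) (by linarith) _ ?_ ?_
        · refine hc.cy.add ?_
          have h3 := hd.mapx
          have e3 : k - p - q + p = k - q := by ring
          rwa [e3] at h3
        · rw [map_add, lc_mapx, h2, neg_add_cancel]
      have hy0 : cy c = 0 := by
        ext ⟨a, b, j⟩
        rcases a with _ | a
        · have h3 := DFunLike.congr_fun hcy (0, b, j)
          have h4 : (d.embDomain (shx ι)) (0, b, j) = 0 := by
            refine Finsupp.embDomain_of_notMem_range _ _ _ ?_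
            rintro ⟨t, ht⟩
            have := congrArg Prod.fst ht
            simp [shx] at this
          rw [Finsupp.add_apply, h4, add_zero] at h3
          exact h3
        · rw [cy_apply]
          simp
      rw [hy0, zero_add] at hcy
      have hd0 : d = 0 := by
        ext t
        have h3 := DFunLike.congr_fun hcy (shx ι t)
        rw [Finsupp.embDomain_apply_self] at h3
        exact h3
      rw [hd0, map_zero, mul_zero] at h1
      have hx0 : cx c = 0 := ih (k - p) (by linarith) _ hc.cx h1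
      rw [split c, hz, hx0, hy0]
      simp
  intro k c
  exact key (k.toNat + 1) k (by have := Int.self_le_toNat k; push_cast; linarith) c

/-- Existence of homogeneous generators. -/
theorem exists_gens {K A : Type*} [Field K] [CommRing A] [Algebra K A] {x y : A} {p q : ℤ}
    {M : ℤ → Submodule K A} (hM : RegMod x y p q M) :
    ∃ (S : ℤ → Set A), Gens (ι := {t : ℤ × A // t.2 ∈ S t.1}) x y p q M (fun t => t.1.2)
      fun t => t.1.1 := by
  classical
  let T : ℤ → Submodule K A := fun k =>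
    (M (k - p)).map (LinearMap.mulLeft K x) ⊔ (M (k - q)).map (LinearMap.mulLeft K y)
  have hTM : ∀ k, T k ≤ M k := by
    intro k
    refine sup_le ?_ ?_
    · rintro _ ⟨f, hf, rfl⟩
      have h1 := hM.mulx _ f hf
      rwa [sub_add_cancel] at h1
    · rintro _ ⟨f, hf, rfl⟩
      have h1 := hM.muly _ f hf
      rwa [sub_add_cancel] at h1
  have hC : ∀ k, ∃ C : Submodule K A, C ≤ M k ∧ Disjoint C (T k) ∧ M k ≤ C ⊔ T k := by
    intro k
    obtain ⟨C', hC'⟩ := (T k).exists_isCompl
    refine ⟨C' ⊓ M k, inf_le_right, ?_, ?_⟩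
    · exact (hC'.disjoint.symm).mono_left inf_le_left
    · intro f hf
      have h1 : f ∈ T k ⊔ C' := by
        rw [hC'.codisjoint.eq_top]
        trivial
      obtain ⟨t, ht, c, hc, rfl⟩ := Submodule.mem_sup.1 h1
      rw [add_comm]
      refine Submodule.add_mem_sup ⟨hc, ?_⟩ ht
      have h2 := Submodule.sub_mem _ hf (hTM k ht)
      rwa [add_sub_cancel_left] at h2
  choose C hCM hCd hCs using hC
  have hS : ∀ k, ∃ S : Set A, S ⊆ C k ∧ Submodule.span K S = C k ∧
      LinearIndependent K ((↑) : S → A) := by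
    intro k
    obtain ⟨b, h1, h2, h3⟩ := exists_linearIndependent K ((C k : Submodule K A) : Set A)
    exact ⟨b, h1, by rw [h2, Submodule.span_eq], h3⟩
  choose S hSC hSs hSi using hS
  let emb : ∀ k, S k ↪ {t : ℤ × A // t.2 ∈ S t.1} := fun k =>
    ⟨fun s => ⟨(k, s.1), s.2⟩, fun s t h => by
      have h1 := congrArg (fun u : {t : ℤ × A // t.2 ∈ S t.1} => u.1.2) h
      exact Subtype.ext h1⟩
  refine ⟨S, fun t => hCM _ (hSC _ t.2), ?_, ?_⟩
  · intro k f hf
    obtain ⟨f₀, hf₀, f₁, hf₁, rfl⟩ := Submodule.mem_sup.1 (hCs k hf)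
    obtain ⟨_, ⟨g, hg, rfl⟩, _, ⟨h, hh, rfl⟩, rfl⟩ := Submodule.mem_sup.1 hf₁
    rw [← hSs k, Finsupp.mem_span_iff_linearCombination] at hf₀
    obtain ⟨l, rfl⟩ := hf₀
    refine ⟨l.embDomain (emb k), ?_, g, hg, h, hh, ?_⟩
    · intro j hj
      by_cases h : j ∈ Set.range (emb k)
      · obtain ⟨s, rfl⟩ := h
        rfl
      · exact absurd (Finsupp.embDomain_of_notMem_range _ _ _ h) hj
    · rw [Finsupp.linearCombination_embDomain, add_assoc]
      rfl
  · intro k c hc g hg h hh h0
    have h1 : c = (c.comapDomain (emb k) ((emb k).injective.injOn)).embDomain (emb k) := by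
      ext t
      by_cases ht : t ∈ Set.range (emb k)
      · obtain ⟨s, rfl⟩ := ht
        rw [Finsupp.embDomain_apply_self]
        rfl
      · rw [Finsupp.embDomain_of_notMem_range _ _ _ ht]
        by_contra hne
        apply ht
        have h2 := hc t hne
        obtain ⟨⟨k', s⟩, hs⟩ := t
        simp only at h2
        subst h2
        exact ⟨⟨s, hs⟩, rfl⟩
    set d := c.comapDomain (emb k) ((emb k).injective.injOn) with hd
    have h2 : Finsupp.linearCombination K (fun t : {t : ℤ × A // t.2 ∈ S t.1} => t.1.2) c =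
        Finsupp.linearCombination K ((↑) : S k → A) d := by
      rw [h1, Finsupp.linearCombination_embDomain]
      rfl
    rw [h2] at h0
    have h3 : Finsupp.linearCombination K ((↑) : S k → A) d ∈ C k := by
      rw [← hSs k, Finsupp.mem_span_iff_linearCombination]
      exact ⟨d, rfl⟩
    have h4 : x * g + y * h ∈ T k :=
      Submodule.add_mem_sup ⟨g, hg, rfl⟩ ⟨h, hh, rfl⟩
    have h5 : Finsupp.linearCombination K ((↑) : S k → A) d ∈ T k := by
      have h6 : Finsupp.linearCombination K ((↑) : S k → A) d = -(x * g + y * h) := by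
        rw [add_assoc] at h0
        exact eq_neg_of_add_eq_zero_left h0
      rw [h6]
      exact neg_mem h4
    have h6 := (Submodule.disjoint_def.1 (hCd k)) _ h3 h5
    have h7 : d = 0 := (linearIndependent_iff.1 (hSi k)) d h6
    rw [h1, h7]
    simp

/-- **Freeness.** For a regular graded module there is a homogeneous family `F` such that, for
every `k`, the monomials `x ^ a * y ^ b * F j` of degree `k` are a basis of `M k`. -/
theorem exists_free {K : Type*} {A : Type u} [Field K] [CommRing A] [Algebra K A] {x y : A}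
    {p q : ℤ} {M : ℤ → Submodule K A} (hM : RegMod x y p q M) :
    ∃ (ι : Type u) (F : ι → A) (w : ι → ℤ), (∀ j, F j ∈ M (w j)) ∧ (∀ j, 0 ≤ w j) ∧
      ∀ k, LinearIndepOn K (mon x y F) {t | dg p q w t = k} ∧
        Submodule.span K (mon x y F '' {t | dg p q w t = k}) = M k := by
  obtain ⟨S, hG⟩ := exists_gens hM
  refine ⟨{t : ℤ × A // t.2 ∈ S t.1}, fun t => t.1.2, fun t => t.1.1, hG.mem, hG.w_nonneg hM,
    fun k => ⟨?_, ?_⟩⟩
  · rw [linearIndepOn_iff]
    intro c hc h0
    refine hG.indep hM k c (fun t ht => ?_) h0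
    exact (Finsupp.mem_supported K c).1 hc (Finsupp.mem_support_iff.2 ht)
  · refine le_antisymm ?_ fun f hf => ?_
    · rw [Submodule.span_le]
      rintro _ ⟨t, ht, rfl⟩
      have h1 := hM.mon_mem hG.mem t
      rw [Set.mem_ofPred_eq] at ht
      rwa [ht] at h1
    · obtain ⟨c, hc, rfl⟩ := hG.span hM k f hf
      rw [lc, Finsupp.linearCombination_apply]
      refine Submodule.sum_mem _ fun t ht => Submodule.smul_mem _ _ (Submodule.subset_span ?_)
      exact ⟨t, hc t (Finsupp.mem_support_iff.1 ht), rfl⟩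

end Gouvea.EX
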