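import Pool.Agent.Work.MP_d3517d_nt.EX.FreeAlg

/-!
# Modular forms for a subgroup of `SL₂(ℤ)` are free over `ℂ[E₄, E₆]` (MP_d3517d_nt, part EX)
-/

open UpperHalfPlane CongruenceSubgroup Matrix.SpecialLinearGroup ModularForm Filter
open scoped MatrixGroups ModularForm Manifold Topology

noncomputable section

namespace Gouvea.EX

/-- The modular forms of weight `k` for `Γ ≤ SL₂(ℤ)`, as functions. -/
def Mf (Γ : Subgroup SL(2, ℤ)) (k : ℤ) : Submodule ℂ (ℍ → ℂ) where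
  carrier := {f | MDiff f ∧ (∀ γ ∈ Γ, f ∣[k] γ = f) ∧
    ∀ γ : SL(2, ℤ), IsBoundedAtImInfty (f ∣[k] γ)}
  add_mem' := by
    rintro f g ⟨hf1, hf2, hf3⟩ ⟨hg1, hg2, hg3⟩
    refine ⟨hf1.add hg1, fun γ hγ => ?_, fun γ => ?_⟩
    · rw [SlashAction.add_slash, hf2 γ hγ, hg2 γ hγ]
    · rw [SlashAction.add_slash]
      exact (hf3 γ).add (hg3 γ)
  zero_mem' := by
    refine ⟨mdifferentiable_const, fun γ _ => SlashAction.zero_slash _ _, fun γ => ?_⟩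
    rw [SlashAction.zero_slash]
    exact zero_form_isBoundedAtImInfty
  smul_mem' := by
    rintro c f ⟨hf1, hf2, hf3⟩
    refine ⟨hf1.const_smul c, fun γ hγ => ?_, fun γ => ?_⟩
    · rw [SL_smul_slash, hf2 γ hγ]
    · rw [SL_smul_slash]
      exact (hf3 γ).const_smul_left c

lemma mem_Mf {Γ : Subgroup SL(2, ℤ)} {k : ℤ} {f : ℍ → ℂ} :
    f ∈ Mf Γ k ↔ MDiff f ∧ (∀ γ ∈ Γ, f ∣[k] γ = f) ∧
      ∀ γ : SL(2, ℤ), IsBoundedAtImInfty (f ∣[k] γ) := Iff.rfl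

/-- Elements of `Mf` are modular forms in the sense of Mathlib. -/
lemma exists_form_of_mem_Mf {Γ : Subgroup SL(2, ℤ)} {k : ℤ} {f : ℍ → ℂ} (hf : f ∈ Mf Γ k) :
    ∃ F : ModularForm (Γ.map (mapGL ℝ)) k, ⇑F = f := by
  refine ⟨
    { toFun := f
      slash_action_eq' := ?_
      holo' := hf.1
      bdd_at_cusps' := fun {c} hc => ?_ }, rfl⟩
  · rintro _ ⟨γ, hγ, rfl⟩
    exact hf.2.1 γ hγ
  · have h1 : IsCusp c 𝒮ℒ := hc.mono (by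
      rintro _ ⟨γ, _, rfl⟩
      exact ⟨γ, rfl⟩)
    exact (OnePoint.isBoundedAt_iff_forall_SL2Z h1).2 fun γ _ => hf.2.2 γ

lemma coe_mem_Mf {Γ : Subgroup SL(2, ℤ)} [Γ.FiniteIndex] {k : ℤ}
    (F : ModularForm (Γ.map (mapGL ℝ)) k) : (⇑F : ℍ → ℂ) ∈ Mf Γ k := by
  refine ⟨F.holo', fun γ hγ => F.slash_action_eq' _ (Subgroup.mem_map_of_mem _ hγ), fun γ => ?_⟩
  exact ModularFormClass.bdd_at_infty_slash F γ

/-- Level one forms, as functions. -/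
lemma levelOne_mem_Mf (Γ : Subgroup SL(2, ℤ)) {k : ℤ} (F : ModularForm 𝒮ℒ k) :
    (⇑F : ℍ → ℂ) ∈ Mf Γ k := by
  refine ⟨F.holo', fun γ _ => F.slash_action_eq' _ ⟨γ, rfl⟩, fun γ => ?_⟩
  exact ModularFormClass.bdd_at_infty_slash F γ

lemma slash_levelOne {k : ℤ} (F : ModularForm 𝒮ℒ k) (γ : SL(2, ℤ)) :
    (⇑F : ℍ → ℂ) ∣[k] γ = F := F.slash_action_eq' _ ⟨γ, rfl⟩

lemma isBounded_mul {f g : ℍ → ℂ} (hf : IsBoundedAtImInfty f) (hg : IsBoundedAtImInfty g) :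
    IsBoundedAtImInfty (f * g) := by
  have h := Asymptotics.IsBigO.mul hf hg
  rw [IsBoundedAtImInfty, BoundedAtFilter]
  refine h.trans_eventuallyEq (Eventually.of_forall fun z => ?_)
  simp

lemma mul_mem_Mf {Γ : Subgroup SL(2, ℤ)} {k l : ℤ} {f g : ℍ → ℂ} (hf : f ∈ Mf Γ k)
    (hg : g ∈ Mf Γ l) : f * g ∈ Mf Γ (k + l) := by
  refine ⟨hf.1.mul hg.1, fun γ hγ => ?_, fun γ => ?_⟩
  · rw [mul_slash_SL2, hf.2.1 γ hγ, hg.2.1 γ hγ]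
  · rw [mul_slash_SL2]
    exact isBounded_mul (hf.2.2 γ) (hg.2.2 γ)

lemma Mf_eq_bot {Γ : Subgroup SL(2, ℤ)} [Γ.FiniteIndex] {k : ℤ} (hk : k < 0) : Mf Γ k = ⊥ := by
  rw [eq_bot_iff]
  intro f hf
  obtain ⟨F, rfl⟩ := exists_form_of_mem_Mf hf
  rw [ModularForm.isZero_of_neg_weight hk F]
  simp

lemma tendsto_valueAtInfty {k : ℤ} (f : ModularForm 𝒮ℒ k) :
    Tendsto (⇑f : ℍ → ℂ) atImInfty (𝓝 (valueAtInfty f)) := by
  have hanal := ModularFormClass.analyticAt_cuspFunction_zero f one_pos one_mem_strictPeriods_SL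
  have hper := SlashInvariantFormClass.periodic_comp_ofComplex f one_mem_strictPeriods_SL
  rw [← cuspFunction_apply_zero one_pos hanal hper]
  exact (hanal.continuousAt.tendsto.comp (qParam_tendsto_atImInfty one_pos)).congr
    (fun τ ↦ SlashInvariantFormClass.eq_cuspFunction f τ one_mem_strictPeriods_SL one_ne_zero)

lemma tendsto_E {k : ℕ} (hk : 3 ≤ k) (hk2 : Even k) :
    Tendsto (⇑(ModularForm.E hk) : ℍ → ℂ) atImInfty (𝓝 1) := by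
  have h1 : valueAtInfty (⇑(ModularForm.E hk) : ℍ → ℂ) = 1 := by
    rw [← qExpansion_coeff_zero one_pos
      (ModularFormClass.analyticAt_cuspFunction_zero _ one_pos one_mem_strictPeriods_SL)
      (SlashInvariantFormClass.periodic_comp_ofComplex _ one_mem_strictPeriods_SL)]
    exact EisensteinSeries.E_qExpansion_coeff_zero hk hk2
  rw [← h1]
  exact tendsto_valueAtInfty _

/-- **Regularity** of `(E₄, E₆)` on the modular forms for `Γ`. -/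
theorem reg_E {Γ : Subgroup SL(2, ℤ)} {k : ℤ} {f g : ℍ → ℂ} (hf : f ∈ Mf Γ (k + 6))
    (hg : g ∈ Mf Γ (k + 4)) (h0 : (⇑E₄ : ℍ → ℂ) * f + (⇑E₆ : ℍ → ℂ) * g = 0) :
    ∃ h ∈ Mf Γ k, f = (⇑E₆ : ℍ → ℂ) * h ∧ g = -((⇑E₄ : ℍ → ℂ) * h) := by
  set n : ℍ → ℂ := (-(1728 : ℂ)⁻¹) • ((⇑E₄ : ℍ → ℂ) * ((⇑E₄ : ℍ → ℂ) * g) + (⇑E₆ : ℍ → ℂ) * f)
    with hn
  set h : ℍ → ℂ := n / (⇑CuspForm.discriminant : ℍ → ℂ) with hh
  have h0' : ∀ z, E₄ z * f z + E₆ z * g z = 0 := fun z => congrFun h0 z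
  have hD : ∀ z, discriminant z = (E₄ z ^ 3 - E₆ z ^ 2) / 1728 :=
    discriminant_eq_E₄_cube_sub_E₆_sq
  have hD0 : ∀ z, discriminant z ≠ 0 := discriminant_ne_zero
  have hhz : ∀ z, h z = -(1728 : ℂ)⁻¹ * (E₄ z * (E₄ z * g z) + E₆ z * f z) / discriminant z :=
    fun z => rfl
  have hfh : f = (⇑E₆ : ℍ → ℂ) * h := by
    funext z
    rw [Pi.mul_apply, hhz, mul_div_assoc', eq_div_iff (hD0 z), hD z]
    linear_combination (E₄ z ^ 2 / 1728) * h0' z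
  have hgh : g = -((⇑E₄ : ℍ → ℂ) * h) := by
    funext z
    rw [Pi.neg_apply, Pi.mul_apply, hhz, mul_div_assoc', ← neg_div, eq_div_iff (hD0 z), hD z]
    linear_combination (- (E₆ z / 1728)) * h0' z
  have hnM : ∀ γ : SL(2, ℤ), n ∣[k + 12] γ =
      (-(1728 : ℂ)⁻¹) • ((⇑E₄ : ℍ → ℂ) * ((⇑E₄ : ℍ → ℂ) * (g ∣[k + 4] γ)) +
        (⇑E₆ : ℍ → ℂ) * (f ∣[k + 6] γ)) := by
    intro γ
    rw [hn, SL_smul_slash, SlashAction.add_slash]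
    have e1 : ((⇑E₄ : ℍ → ℂ) * ((⇑E₄ : ℍ → ℂ) * g)) ∣[k + 12] γ =
        (⇑E₄ : ℍ → ℂ) * ((⇑E₄ : ℍ → ℂ) * (g ∣[k + 4] γ)) := by
      rw [show k + 12 = 4 + (4 + (k + 4)) by ring, mul_slash_SL2, mul_slash_SL2, slash_levelOne]
    have e2 : ((⇑E₆ : ℍ → ℂ) * f) ∣[k + 12] γ = (⇑E₆ : ℍ → ℂ) * (f ∣[k + 6] γ) := by
      rw [show k + 12 = 6 + (k + 6) by ring, mul_slash_SL2, slash_levelOne]
    rw [e1, e2]
  have hhM : ∀ γ : SL(2, ℤ), h ∣[k] γ = (n ∣[k + 12] γ) / (⇑CuspForm.discriminant : ℍ → ℂ) := by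
    intro γ
    have e1 := div_slash_SL2 (k + 12) 12 γ n (⇑CuspForm.discriminant : ℍ → ℂ)
    rw [show k + 12 - 12 = k by ring] at e1
    rw [hh, e1]
    congr 1
    exact CuspForm.discriminant.slash_action_eq' _ ⟨γ, rfl⟩
  refine ⟨h, ⟨?_, fun γ hγ => ?_, fun γ => ?_⟩, hfh, hgh⟩
  · refine MDifferentiable.div ?_ CuspForm.discriminant.holo' discriminant_ne_zero
    exact (((E₄.holo').mul ((E₄.holo').mul hg.1)).add ((E₆.holo').mul hf.1)).const_smul _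
  · rw [hhM, hnM, hf.2.1 γ hγ, hg.2.1 γ hγ]
  · -- `(f ∣ γ) = E₆ * (h ∣ γ)`
    have e1 : f ∣[k + 6] γ = (⇑E₆ : ℍ → ℂ) * (h ∣[k] γ) := by
      conv_lhs => rw [hfh]
      rw [show k + 6 = 6 + k by ring, mul_slash_SL2, slash_levelOne]
    have e2 := hf.2.2 γ
    have e3 : Tendsto (⇑E₆ : ℍ → ℂ) atImInfty (𝓝 1) := tendsto_E _ ⟨3, rfl⟩
    have e4 : ∀ᶠ z in atImInfty, (1 : ℝ) / 2 ≤ ‖(⇑E₆ : ℍ → ℂ) z‖ := by
      have := e3.norm.eventually (lt_mem_nhds (show (1 : ℝ) / 2 < ‖(1 : ℂ)‖ by norm_num))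
      exact this.mono fun z hz => hz.le
    have e5 : (h ∣[k] γ) =O[atImInfty] (f ∣[k + 6] γ) := by
      refine Asymptotics.IsBigO.of_bound 2 (e4.mono fun z hz => ?_)
      rw [e1, Pi.mul_apply, norm_mul]
      nlinarith [norm_nonneg ((h ∣[k] γ) z)]
    exact e5.trans e2

end Gouvea.EX
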